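import Pool.Agent.Helper53.CTG.Goals

/-!
# PROJECT CTG (MP_8b4d68_lc), packet LN (helper44, after helper66): the vector operations are linear space functions
-/

set_option autoImplicit false

namespace Pool.Agent.Helper44.CTG

open Pool.Agent.Helper53.CTG
open Pool.Agent.Helper1.TE (Gad app cif ctab bitc seed wN vN addm GoalLSD GoalLCT GoalLCF)
open Pool.Agent.Helper65.LinSpace (dig tab nrec ifz eq01 le01 lt01 capPow Ctx LS nrec_succ)
open Finset

private lemma dig_le (q X i : ℕ) : dig q X i ≤ X :=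
  (Nat.mod_le _ _).trans (Nat.div_le_self _ _)

private lemma vN_eq (c : ℕ → ℕ → ℕ) (m p i : ℕ) :
    vN c m p i = ifz (lt01 i m) (ifz (eq01 i m) 1 (Pool.Agent.Helper1.TE.nrm c m p)) (c p i) := by
  unfold vN ifz lt01 eq01
  by_cases h1 : i < m
  · simp [h1]
  · by_cases h2 : i = m
    · simp [h2]
    · simp [h1, h2]

private lemma cC_le (b W p i : ℕ) : cC b W p i ≤ 1 := by
  unfold cC bitc
  exact Nat.lt_succ_iff.1 (Nat.mod_lt _ (by norm_num))

section par

variable {α : Type} [Ctx α] {f g h k : α → ℕ}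

theorem ls_Rb (hf : LS f) : LS (fun a => Rb (f a)) := by unfold Rb; fun_prop
theorem ls_Pb (hf : LS f) : LS (fun a => Pb (f a)) := by
  have := ls_Rb hf
  unfold Pb
  fun_prop
theorem ls_Gb (hf : LS f) : LS (fun a => Gb (f a)) := by
  have := ls_Rb hf
  have := ls_Pb hf
  unfold Gb
  fun_prop
theorem ls_Eb (hf : LS f) : LS (fun a => Eb (f a)) := by
  have := ls_Pb hf
  unfold Eb
  fun_prop
theorem ls_Hb (hf : LS f) (hg : LS g) : LS (fun a => Hb (f a) (g a)) := by
  unfold Hb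
  fun_prop
theorem ls_Fb (hf : LS f) (hg : LS g) (hh : LS h) : LS (fun a => Fb (f a) (g a) (h a)) := by
  have := ls_Gb hh
  have := ls_Hb hf hg
  unfold Fb
  fun_prop
theorem ls_Nt (hf : LS f) (hg : LS g) : LS (fun a => Nt (f a) (g a)) := by
  have := ls_Hb hf hg
  unfold Nt
  fun_prop
theorem ls_Et (hf : LS f) (hg : LS g) (hh : LS h) (hk : LS k) :
    LS (fun a => Et (f a) (g a) (h a) (k a)) := by
  have := ls_Eb hh
  have := ls_Fb hf hg hh
  have := ls_Nt hf hg
  have := ls_Hb hf hg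
  unfold Et
  fun_prop

end par

section vec

variable {α : Type} [Ctx α] {b W p i X al y : α → ℕ}

theorem ls_cC (hLSD : GoalLSD) (hb : LS b) (hW : LS W) (hp : LS p) (hi : LS i) :
    LS (fun a => cC (b a) (W a) (p a) (i a)) := by
  obtain ⟨hbitc0, hseed0⟩ := hLSD
  have hs : LS (fun a => seed (b a) (W a)) :=
    LS.comp (g := fun x : ℕ × ℕ => seed x.1 x.2) (f := fun a => (b a, W a)) hseed0
      (by fun_prop)
  exact LS.comp (g := fun x : ℕ × ℕ × ℕ × ℕ => bitc x.1 x.2.1 x.2.2.1 x.2.2.2)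
      (f := fun a => (b a, seed (b a) (W a), p a, i a)) hbitc0 (by fun_prop)

theorem ls_nrm (hLSD : GoalLSD) (hb : LS b) (hW : LS W) (hp : LS p) :
    LS (fun a => Pool.Agent.Helper1.TE.nrm (cC (b a) (W a)) (4 * b a) (p a)) := by
  have hb' : LS (fun x : α × ℕ => b x.1) := LS.comp hb LS.fst
  have hW' : LS (fun x : α × ℕ => W x.1) := LS.comp hW LS.fst
  have hp' : LS (fun x : α × ℕ => p x.1) := LS.comp hp LS.fst
  exact LS.sum_le (f := fun a i => cC (b a) (W a) (p a) i ^ 2)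
    (N := fun a => 4 * b a) (B := fun _ => 1)
    (LS.pow_const (ls_cC hLSD hb' hW' hp' LS.snd) 2) (by fun_prop) (LS.const 1)
    (fun a i _ => by
      have := Nat.pow_le_pow_left (cC_le (b a) (W a) (p a) i) 2
      simpa using this)

theorem ls_vN (hLSD : GoalLSD) (hb : LS b) (hW : LS W) (hp : LS p) (hi : LS i) :
    LS (fun a => vN (cC (b a) (W a)) (4 * b a) (p a) (i a)) := by
  have h4 : LS (fun a => 4 * b a) := by fun_prop
  exact LS.congr (LS.ifz (LS.lt01 hi h4) (LS.ifz (LS.eq01 hi h4)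
      (LS.const 1) (ls_nrm hLSD hb hW hp)) (ls_cC hLSD hb hW hp hi)) fun a => vN_eq _ _ _ _

theorem ls_wC (hLSD : GoalLSD) (hb : LS b) (hW : LS W) (hp : LS p) (hX : LS X) :
    LS (fun a => wC (b a) (W a) (p a) (X a)) := by
  have hb' : LS (fun x : α × ℕ => b x.1) := LS.comp hb LS.fst
  have hW' : LS (fun x : α × ℕ => W x.1) := LS.comp hW LS.fst
  have hp' : LS (fun x : α × ℕ => p x.1) := LS.comp hp LS.fst
  have hX' : LS (fun x : α × ℕ => X x.1) := LS.comp hX LS.fst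
  have hq := ls_Pb hb
  have hq' := ls_Pb hb'
  have h4 : LS (fun a => 4 * b a) := by fun_prop
  have h36 : LS (fun a => 36 * b a) := by fun_prop
  have hsum : LS (fun a => ∑ i ∈ range (4 * b a), 2 * cC (b a) (W a) (p a) i *
      dig (Pb (b a)) (X a) i) :=
    LS.sum_le (f := fun a i => 2 * cC (b a) (W a) (p a) i * dig (Pb (b a)) (X a) i)
      (N := fun a => 4 * b a) (B := fun a => 2 * 1 * X a)
      (LS.mul (LS.mul (LS.const 2) (ls_cC hLSD hb' hW' hp' LS.snd)) (LS.dig hq' hX' LS.snd))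
      h4 (LS.mul (LS.mul (LS.const 2) (LS.const 1)) hX)
      (fun a i _ => Nat.mul_le_mul (Nat.mul_le_mul_left _ (cC_le _ _ _ _)) (dig_le _ _ _))
  exact LS.mod (LS.add (LS.add hsum (LS.mul (LS.pred hq) (LS.dig hq hX h4)))
    (LS.mul (LS.sub h36 (ls_nrm hLSD hb hW hp)) (LS.dig hq hX (LS.succ h4)))) hq

theorem ls_shC (hLSD : GoalLSD) (hLCT : GoalLCT) (hb : LS b) (hW : LS W) (hal : LS al)
    (hp : LS p) (hX : LS X) : LS (fun a => shC (b a) (W a) (al a) (p a) (X a)) := by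
  have hb' : LS (fun x : α × ℕ => b x.1) := LS.comp hb LS.fst
  have hW' : LS (fun x : α × ℕ => W x.1) := LS.comp hW LS.fst
  have hp' : LS (fun x : α × ℕ => p x.1) := LS.comp hp LS.fst
  have hX' : LS (fun x : α × ℕ => X x.1) := LS.comp hX LS.fst
  have hal' : LS (fun x : α × ℕ => al x.1) := LS.comp hal LS.fst
  have h4 : LS (fun a => 4 * b a + 2) := by fun_prop
  exact hLCT W (fun a => Pb (b a)) (fun a => 4 * b a + 2)
    (fun a i => (dig (Pb (b a)) (X a) i + al a * vN (cC (b a) (W a)) (4 * b a) (p a) i) %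
      Pb (b a)) hW (ls_Pb hb) h4
    (LS.mod (LS.add (LS.dig (ls_Pb hb') hX' LS.snd) (LS.mul hal' (ls_vN hLSD hb' hW' hp' LS.snd)))
      (ls_Pb hb'))

theorem ls_ushC (hLSD : GoalLSD) (hLCT : GoalLCT) (hb : LS b) (hW : LS W)
    (hp : LS p) (hX : LS X) : LS (fun a => ushC (b a) (W a) (p a) (X a)) := by
  have hb' : LS (fun x : α × ℕ => b x.1) := LS.comp hb LS.fst
  have hW' : LS (fun x : α × ℕ => W x.1) := LS.comp hW LS.fst
  have hp' : LS (fun x : α × ℕ => p x.1) := LS.comp hp LS.fst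
  have hX' : LS (fun x : α × ℕ => X x.1) := LS.comp hX LS.fst
  have h4 : LS (fun a => 4 * b a + 2) := by fun_prop
  exact hLCT W (fun a => Pb (b a)) (fun a => 4 * b a + 2)
    (fun a i => (dig (Pb (b a)) (X a) i +
      9 * (Pb (b a) - vN (cC (b a) (W a)) (4 * b a) (p a) i)) % Pb (b a)) hW (ls_Pb hb) h4
    (LS.mod (LS.add (LS.dig (ls_Pb hb') hX' LS.snd)
      (LS.mul (LS.const 9) (LS.sub (ls_Pb hb') (ls_vN hLSD hb' hW' hp' LS.snd)))) (ls_Pb hb'))

theorem ls_addC (hLCT : GoalLCT) (hb : LS b) (hW : LS W)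
    (hX : LS X) (hy : LS y) : LS (fun a => addC (b a) (W a) (X a) (y a)) := by
  have hb' : LS (fun x : α × ℕ => b x.1) := LS.comp hb LS.fst
  have hX' : LS (fun x : α × ℕ => X x.1) := LS.comp hX LS.fst
  have hy' : LS (fun x : α × ℕ => y x.1) := LS.comp hy LS.fst
  have h4 : LS (fun a => 4 * b a + 2) := by fun_prop
  have h4' : LS (fun x : α × ℕ => 4 * b x.1) := by fun_prop
  exact hLCT W (fun a => Pb (b a)) (fun a => 4 * b a + 2)
    (fun a i => ifz (eq01 i (4 * b a)) (dig (Pb (b a)) (X a) i)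
      ((dig (Pb (b a)) (X a) (4 * b a) + y a) % Pb (b a))) hW (ls_Pb hb) h4
    (LS.ifz (LS.eq01 LS.snd h4') (LS.dig (ls_Pb hb') hX' LS.snd)
      (LS.mod (LS.add (LS.dig (ls_Pb hb') hX' h4') hy') (ls_Pb hb')))

end vec

section app

variable {α : Type} [Ctx α] {b W T v X S : α → ℕ}

theorem ls_apT (hLSD : GoalLSD) (hLCT : GoalLCT) {tst : ℕ → ℕ} (htst : LS tst) (hb : LS b)
    (hW : LS W) (hT : LS T) (hv : LS v) (hX : LS X) :
    LS (fun a => apT tst (b a) (W a) (T a) (v a) (X a)) := by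
  unfold apT
  exact LS.ifz hT (LS.comp (g := tst) (f := v) htst hv) (LS.ifz (hT.sub (LS.const 1)) (LS.const 1)
    (LS.lt01 (ls_wC hLSD hb hW hv (ls_ushC hLSD hLCT hb hW hv hX)) (ls_Rb hb)))

theorem ls_apX (hLSD : GoalLSD) (hLCT : GoalLCT) (hb : LS b) (hW : LS W) (hT : LS T)
    (hv : LS v) (hX : LS X) (hS : LS S) :
    LS (fun a => apX (b a) (W a) (T a) (v a) (X a) (S a)) := by
  unfold apX
  exact LS.ifz hT hX (LS.ifz (hT.sub (LS.const 1))
    (ls_addC hLCT hb hW hX ((ls_Rb hb).mul (LS.div (ls_wC hLSD hb hW hv hX) (ls_Rb hb))))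
    (ls_addC hLCT hb hW (ls_ushC hLSD hLCT hb hW hv hX)
      ((ls_Pb hb).sub ((ls_Rb hb).mul (LS.mod hS (ls_Gb hb))))))

theorem ls_apS (hLSD : GoalLSD) (hb : LS b) (hW : LS W) (hT : LS T)
    (hv : LS v) (hX : LS X) (hS : LS S) :
    LS (fun a => apS (b a) (W a) (T a) (v a) (X a) (S a)) := by
  unfold apS
  exact LS.ifz hT hS (LS.ifz (hT.sub (LS.const 1))
    (((ls_Gb hb).mul hS).add (LS.div (ls_wC hLSD hb hW hv hX) (ls_Rb hb)))
    (LS.div hS (ls_Gb hb)))

variable {e m j y : α → ℕ}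

theorem ls_setD (hLCT : GoalLCT) (hW : LS W) (he : LS e) (hm : LS m) (hX : LS X) (hj : LS j)
    (hy : LS y) : LS (fun a => setD (W a) (e a) (m a) (X a) (j a) (y a)) := by
  have hW' : LS (fun x : α × ℕ => W x.1) := LS.comp hW LS.fst
  have he' : LS (fun x : α × ℕ => e x.1) := LS.comp he LS.fst
  have hX' : LS (fun x : α × ℕ => X x.1) := LS.comp hX LS.fst
  have hj' : LS (fun x : α × ℕ => j x.1) := LS.comp hj LS.fst
  have hy' : LS (fun x : α × ℕ => y x.1) := LS.comp hy LS.fst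
  exact hLCT W (fun a => capPow 2 (e a) (W a)) m
    (fun a i => ifz (eq01 i (j a)) (dig (capPow 2 (e a) (W a)) (X a) i) (y a)) hW
    (LS.capPow (LS.const 2) he hW) hm
    (LS.ifz (LS.eq01 LS.snd hj') (LS.dig (LS.capPow (LS.const 2) he' hW') hX' LS.snd) hy')

theorem ls_getD (hW : LS W) (he : LS e) (hX : LS X) (hj : LS j) :
    LS (fun a => getD (W a) (e a) (X a) (j a)) :=
  LS.dig (LS.capPow (LS.const 2) he hW) hX hj

end app

theorem gLN : GoalLN := by
  intro hLSD hLCT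
  refine ⟨?_, ?_, ?_, ?_, ?_, ?_, ?_, ?_, ?_, ?_, ?_⟩
  · exact ls_Et (by fun_prop) (by fun_prop) (by fun_prop) (by fun_prop)
  · exact ls_Fb (by fun_prop) (by fun_prop) (by fun_prop)
  · exact ls_Eb (by fun_prop)
  · exact ls_Nt (by fun_prop) (by fun_prop)
  · exact ls_Hb (by fun_prop) (by fun_prop)
  · exact ls_shC hLSD hLCT (by fun_prop) (by fun_prop) (by fun_prop) (by fun_prop) (by fun_prop)
  · intro tst htst
    exact ls_apT hLSD hLCT htst (by fun_prop) (by fun_prop) (by fun_prop) (by fun_prop)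
      (by fun_prop)
  · exact ls_apX hLSD hLCT (by fun_prop) (by fun_prop) (by fun_prop) (by fun_prop) (by fun_prop)
      (by fun_prop)
  · exact ls_apS hLSD (by fun_prop) (by fun_prop) (by fun_prop) (by fun_prop) (by fun_prop)
      (by fun_prop)
  · exact ls_setD hLCT (by fun_prop) (by fun_prop) (by fun_prop) (by fun_prop) (by fun_prop)
      (by fun_prop)
  · exact ls_getD (by fun_prop) (by fun_prop) (by fun_prop) (by fun_prop)

end Pool.Agent.Helper44.CTG
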